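import Mathlib
import Pool.Prelude.Def_H_e9e0c647

namespace Pool.Agent.Lib.SN15

/-- Polynomial time many-one reduction between languages of bit strings. -/
def Red (A B : Set (List Bool)) : Prop :=
  ∃ f : List Bool → List Bool, Nonempty (Turing.TM2ComputableInPolyTime id id f) ∧
    ∀ w, w ∈ A ↔ f w ∈ B

/-- Polynomials with integer coefficients, written as terms. -/
inductive Tm
  | var (i : ℕ)
  | const (z : ℤ)
  | add (s t : Tm)
  | mul (s t : Tm)

/-- Boolean combinations of polynomial equations and inequalities. -/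
inductive Fm
  | eq (s t : Tm)
  | lt (s t : Tm)
  | le (s t : Tm)
  | not (p : Fm)
  | and (p q : Fm)
  | or (p q : Fm)

/-- The value of a term at a real point. -/
def Tm.eval (x : ℕ → ℝ) : Tm → ℝ
  | var i => x i
  | const z => z
  | add s t => s.eval x + t.eval x
  | mul s t => s.eval x * t.eval x

/-- Truth of a formula at a real point. -/
def Fm.Holds (x : ℕ → ℝ) : Fm → Prop
  | eq s t => s.eval x = t.eval x
  | lt s t => s.eval x < t.eval x
  | le s t => s.eval x ≤ t.eval x
  | not p => ¬ p.Holds x
  | and p q => p.Holds x ∧ q.Holds x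
  | or p q => p.Holds x ∨ q.Holds x

/-- Polish form of a term; a symbol is a pair (kind, integer argument). -/
def Tm.code : Tm → List (ℕ × ℤ)
  | var i => [(0, i)]
  | const z => [(1, z)]
  | add s t => (2, 0) :: (s.code ++ t.code)
  | mul s t => (3, 0) :: (s.code ++ t.code)

/-- Polish form of a formula. -/
def Fm.code : Fm → List (ℕ × ℤ)
  | eq s t => (4, 0) :: (s.code ++ t.code)
  | lt s t => (5, 0) :: (s.code ++ t.code)
  | le s t => (6, 0) :: (s.code ++ t.code)
  | not p => (7, 0) :: p.code
  | and p q => (8, 0) :: (p.code ++ q.code)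
  | or p q => (9, 0) :: (p.code ++ q.code)

/-- The existential theory of the reals: binary codes of the formulas true at some real point. -/
def ETR : Set (List Bool) :=
  {w | ∃ p : Fm, w = N487b59b3.bitEncode p.code ∧ ∃ x, p.Holds x}

/-- The languages reducible to the existential theory of the reals. -/
def ExR : Set (Set (List Bool)) := {A | Red A ETR}

/-- Their complements. -/
def AllR : Set (Set (List Bool)) := {A | Aᶜ ∈ ExR}

/-- Completeness of the language `B` for the class `C`. -/
def Complete (C : Set (Set (List Bool))) (B : Set (List Bool)) : Prop :=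
  B ∈ C ∧ ∀ A ∈ C, Red A B

/-- The spectral norm of a rational `d × d × d` tensor. -/
noncomputable def spec {d : ℕ} (T : Fin d → Fin d → Fin d → ℚ) : ℝ :=
  sSup {r | ∃ x y z : EuclideanSpace ℝ (Fin d), ‖x‖ = 1 ∧ ‖y‖ = 1 ∧ ‖z‖ = 1 ∧
    r = |∑ i, ∑ j, ∑ k, (T i j k : ℝ) * x i * y j * z k|}

/-- The binary code of the input `(d, T, s)`. -/
def input {d : ℕ} (T : Fin d → Fin d → Fin d → ℚ) (s : ℚ) : List Bool :=
  N487b59b3.bitEncode (d, (List.ofFn fun i => List.ofFn fun j => List.ofFn fun k => T i j k), s)

/-- The language of the inputs with spectral norm at most `s`. -/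
def BOUND : Set (List Bool) :=
  {w | ∃ (d : ℕ) (T : Fin d → Fin d → Fin d → ℚ) (s : ℚ), 0 < s ∧ w = input T s ∧ spec T ≤ s}

/-- The language of the inputs with spectral norm larger than `s`. -/
def EXCEED : Set (List Bool) :=
  {w | ∃ (d : ℕ) (T : Fin d → Fin d → Fin d → ℚ) (s : ℚ), 0 < s ∧ w = input T s ∧ s < spec T}

end Pool.Agent.Lib.SN15
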