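import Pool.Agent.Lib.helper82.Parse

/-! Subtraction, coprimality, and decoders for integers and rationals in polynomial time. -/

namespace Pool.Agent.Lib.SN15

open Pool.Agent.Lib.helper82

variable {α : Type} [Enc α]

def subStep (a b : ℕ) (s : ℕ × ℕ) : ℕ × ℕ :=
  (s.1 / 2, if b + s.2 + s.1 / 2 ≤ a then s.2 + s.1 / 2 else s.2)

lemma subStep_iter (a b L : ℕ) (h : a < 2 ^ L) : ∀ k ≤ L,
    ((subStep a b)^[k] (2 ^ L, 0)).1 = 2 ^ (L - k) ∧ ((subStep a b)^[k] (2 ^ L, 0)).2 ≤ a - b ∧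
      a - b < ((subStep a b)^[k] (2 ^ L, 0)).2 + 2 ^ (L - k) := by
  intro k
  induction k with
  | zero => intro _; simp; omega
  | succ k ih =>
    intro hk
    obtain ⟨h1, h2, h3⟩ := ih (by omega)
    rw [Function.iterate_succ_apply']
    generalize (subStep a b)^[k] (2 ^ L, 0) = s at *
    have e : 2 ^ (L - k) = 2 * 2 ^ (L - (k + 1)) := by
      rw [show L - k = (L - (k + 1)) + 1 by omega, pow_succ']
    have hp : 0 < 2 ^ (L - (k + 1)) := by positivity
    have e2 : s.1 / 2 = 2 ^ (L - (k + 1)) := by omega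
    simp only [subStep, e2]
    refine ⟨trivial, ?_⟩
    split_ifs <;> omega

theorem sub_pt {m n : α → ℕ} (hm : PT m) (hn : PT n) : PT fun a => m a - n a := by
  have hl : ∀ a, (m a).bits.length = sz (m a) := fun a => by rw [sz_nat, Nat.size_eq_bits_len]
  have h := PT.foldl (h := fun a (s : ℕ × ℕ) (_ : Bool) => subStep (m a) (n a) s) (PT.bits hm)
    (PT.pair (PT.powU (PT.const 2) (PT.bits hm)) (PT.const 0))
    (PT.pair (PT.div2 (PT.fst (PT.fst PT.snd')))
      (PT.ite (PT.le (PT.add (PT.add (PT.comp hn PT.fst') (PT.snd (PT.fst PT.snd')))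
        (PT.div2 (PT.fst (PT.fst PT.snd')))) (PT.comp hm PT.fst'))
        (PT.add (PT.snd (PT.fst PT.snd')) (PT.div2 (PT.fst (PT.fst PT.snd'))))
        (PT.snd (PT.fst PT.snd'))))
    (fun a => 3 * sz (m a) + 3) (((Bd.const 3).mul hm.sz_bd).add (Bd.const 3)) (by
      intro a k
      rw [foldl_const_iter, hl]
      have hk : ((m a).bits.take k).length ≤ sz (m a) := by rw [← hl]; exact List.length_take_le' _ _
      obtain ⟨h1, h2, -⟩ := subStep_iter (m a) (n a) _ (lt_two_pow_sz (m a)) _ hk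
      generalize (subStep (m a) (n a))^[((m a).bits.take k).length] (2 ^ sz (m a), 0) = s at *
      obtain ⟨p, c⟩ := s
      rw [sz_prod]
      have a1 : sz p ≤ sz (m a) + 1 := by
        rw [sz_nat_le]
        simp only at h1
        rw [h1]
        exact Nat.pow_lt_pow_right (by norm_num) (by omega)
      have a2 : sz c ≤ sz (m a) := sz_nat_mono (by simp only at h2; omega)
      omega)
  refine (PT.snd h).congr fun a => ?_
  rw [foldl_const_iter, hl]
  obtain ⟨-, h2, h3⟩ := subStep_iter (m a) (n a) _ (lt_two_pow_sz (m a)) _ le_rfl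
  simp only [Nat.sub_self, pow_zero] at h3
  omega

def gcdStep (s : ℕ × ℕ) : ℕ × ℕ :=
  bif s.1.bodd then (if s.2 ≤ s.1 then ((s.1 - s.2) / 2, s.2) else ((s.2 - s.1) / 2, s.1))
  else (s.1 / 2, s.2)

lemma gcd_half (a b : ℕ) (hb : b % 2 = 1) (ha : a % 2 = 0) : Nat.gcd (a / 2) b = Nat.gcd a b := by
  obtain ⟨c, rfl⟩ : ∃ c, a = c * 2 := ⟨a / 2, by omega⟩
  rw [Nat.mul_div_cancel _ (by norm_num)]
  refine (Nat.Coprime.gcd_mul_right_cancel c ?_).symm
  rw [Nat.coprime_two_left, Nat.odd_iff]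
  exact hb

lemma gcdStep_spec (s : ℕ × ℕ) (h : s.2 % 2 = 1) :
    (gcdStep s).2 % 2 = 1 ∧ Nat.gcd (gcdStep s).1 (gcdStep s).2 = Nat.gcd s.1 s.2 ∧
      2 * ((gcdStep s).1 * (gcdStep s).2) ≤ s.1 * s.2 ∧
      (gcdStep s).1 + (gcdStep s).2 ≤ s.1 + s.2 := by
  obtain ⟨a, b⟩ := s
  simp only at h
  have hb := Nat.mod_two_of_bodd a
  unfold gcdStep
  cases e : a.bodd
  · rw [e] at hb
    simp only [cond_false]
    refine ⟨h, gcd_half a b h (by simpa using hb), ?_, by omega⟩
    rw [← mul_assoc]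
    exact Nat.mul_le_mul_right _ (by omega)
  · rw [e] at hb
    simp only [Bool.toNat_true] at hb
    simp only [cond_true]
    split_ifs with hle
    · refine ⟨h, ?_, ?_, by simp only; omega⟩
      · simp only
        rw [gcd_half _ _ h (by omega), Nat.gcd_sub_self_left hle]
      · simp only
        rw [← mul_assoc]
        exact Nat.mul_le_mul_right _ (by omega)
    · refine ⟨hb, ?_, ?_, by simp only; omega⟩
      · simp only
        rw [gcd_half _ _ hb (by omega), Nat.gcd_sub_self_left (by omega), Nat.gcd_comm]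
      · simp only
        rw [← mul_assoc, mul_comm a b]
        exact Nat.mul_le_mul_right _ (by omega)

lemma gcdStep_iter (s : ℕ × ℕ) (h : s.2 % 2 = 1) (k : ℕ) :
    (gcdStep^[k] s).2 % 2 = 1 ∧ Nat.gcd (gcdStep^[k] s).1 (gcdStep^[k] s).2 = Nat.gcd s.1 s.2 ∧
      2 ^ k * ((gcdStep^[k] s).1 * (gcdStep^[k] s).2) ≤ s.1 * s.2 := by
  induction k with
  | zero => simp [h]
  | succ k ih =>
    obtain ⟨h1, h2, h3⟩ := ih
    rw [Function.iterate_succ_apply']
    obtain ⟨g1, g2, g3, -⟩ := gcdStep_spec _ h1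
    refine ⟨g1, g2.trans h2, le_trans ?_ h3⟩
    rw [pow_succ, mul_assoc]
    exact Nat.mul_le_mul_left _ g3

lemma gcdStep_le (s : ℕ × ℕ) (k : ℕ) : (gcdStep^[k] s).1 + (gcdStep^[k] s).2 ≤ s.1 + s.2 := by
  induction k with
  | zero => simp
  | succ k ih =>
    rw [Function.iterate_succ_apply']
    refine le_trans ?_ ih
    generalize gcdStep^[k] s = t
    unfold gcdStep
    cases t.1.bodd
    · simp only [cond_false]; omega
    · simp only [cond_true]; split_ifs <;> simp only <;> omega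

theorem gcdStep_pt : PT gcdStep :=
  PT.cond (PT.bodd PT.fst')
    (PT.ite (PT.le PT.snd' PT.fst') (PT.pair (PT.div2 (sub_pt PT.fst' PT.snd')) PT.snd')
      (PT.pair (PT.div2 (sub_pt PT.snd' PT.fst')) PT.fst'))
    (PT.pair (PT.div2 PT.fst') PT.snd')

theorem gcdOdd_pt : PT fun s : ℕ × ℕ => (gcdStep^[sz s] s).2 := by
  refine PT.snd (PT.iterate (cnt := fun s : ℕ × ℕ => s) gcdStep_pt PT.id PT.id
    (fun s => 3 * sz s + 4) (((Bd.const 3).mul Bd.self).add (Bd.const 4)) ?_)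
  intro s k _
  have h := gcdStep_le s k
  generalize gcdStep^[k] s = t at *
  obtain ⟨a, b⟩ := s
  obtain ⟨c, d⟩ := t
  have h1 := PT.sz_add_le a b
  have h2 : sz c ≤ sz (a + b) := sz_nat_mono (by simp only at h; omega)
  have h3 : sz d ≤ sz (a + b) := sz_nat_mono (by simp only at h; omega)
  rw [sz_prod, sz_prod]
  omega

lemma gcdOdd_eq (s : ℕ × ℕ) (h : s.2 % 2 = 1) : (gcdStep^[sz s] s).2 = Nat.gcd s.1 s.2 := by
  obtain ⟨h1, h2, h3⟩ := gcdStep_iter s h (sz s)
  have h4 : s.1 * s.2 < 2 ^ sz s := by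
    obtain ⟨a, b⟩ := s
    rw [← sz_nat_le, sz_prod]
    have := PT.sz_mul_le a b
    simp only
    omega
  have h5 : (gcdStep^[sz s] s).1 * (gcdStep^[sz s] s).2 = 0 := by
    by_contra hne
    have := Nat.mul_le_mul_left (2 ^ sz s) (Nat.one_le_iff_ne_zero.2 hne)
    omega
  have h6 : (gcdStep^[sz s] s).1 = 0 := by
    rcases Nat.mul_eq_zero.1 h5 with h | h
    · exact h
    · omega
  rw [← h2, h6, Nat.gcd_zero_left]

theorem coprime_pt {m n : α → ℕ} (hm : PT m) (hn : PT n) :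
    PT fun a => decide (Nat.gcd (m a) (n a) = 1) := by
  refine (PT.cond (PT.bodd hn) (PT.eq (PT.comp gcdOdd_pt (PT.pair hm hn)) (PT.const 1))
    (PT.cond (PT.bodd hm) (PT.eq (PT.comp gcdOdd_pt (PT.pair hn hm)) (PT.const 1))
      (PT.const false))).congr fun a => ?_
  have h1 := Nat.mod_two_of_bodd (m a)
  have h2 := Nat.mod_two_of_bodd (n a)
  cases e2 : (n a).bodd
  · cases e1 : (m a).bodd
    · rw [e1] at h1
      rw [e2] at h2
      have : 2 ∣ Nat.gcd (m a) (n a) := Nat.dvd_gcd (Nat.dvd_of_mod_eq_zero (by simpa using h1))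
        (Nat.dvd_of_mod_eq_zero (by simpa using h2))
      simp only [cond_false]
      symm
      rw [decide_eq_false_iff_not]
      omega
    · rw [e1] at h1
      simp only [cond_false, cond_true]
      rw [gcdOdd_eq _ (by simpa using h1), Nat.gcd_comm]
  · rw [e2] at h2
    simp only [cond_true]
    rw [gcdOdd_eq _ (by simpa using h2)]

theorem intPos {z : α → ℤ} (hz : PT z) : PT fun a => (z a).toNat :=
  PT.fst (show PT fun a => (((z a).toNat, (-z a).toNat) : ℕ × ℕ) from hz)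

theorem intNeg {z : α → ℤ} (hz : PT z) : PT fun a => (-z a).toNat :=
  PT.snd (show PT fun a => (((z a).toNat, (-z a).toNat) : ℕ × ℕ) from hz)

theorem prs_int : Prs ℤ := by
  obtain ⟨p, hp, ep⟩ := Prs.nat.prod Prs.nat
  refine ⟨fun x => ((p x).1 : ℤ) - (p x).2, ?_, fun z => ?_⟩
  · refine PTR.congr (PT.pair (sub_pt (PT.fst hp) (PT.snd hp)) (sub_pt (PT.snd hp) (PT.fst hp)))
      fun x => ?_
    change _ = enc ((((p x).1 : ℤ) - (p x).2).toNat, (-(((p x).1 : ℤ) - (p x).2)).toNat)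
    rw [show (((p x).1 : ℤ) - (p x).2).toNat = (p x).1 - (p x).2 by omega,
      show (-(((p x).1 : ℤ) - (p x).2)).toNat = (p x).2 - (p x).1 by omega]
  · have : p (enc z) = (z.toNat, (-z).toNat) := ep (z.toNat, (-z).toNat)
    simp only [this]
    omega

theorem prs_rat : Prs ℚ := by
  obtain ⟨p, hp, ep⟩ := prs_int.prod Prs.nat
  have hc : PT fun x => decide (Nat.gcd (p x).1.natAbs (p x).2 = 1 ∧ (p x).2 ≠ 0) := by
    refine (PT.and (coprime_pt (PT.add (intPos (PT.fst hp)) (intNeg (PT.fst hp))) (PT.snd hp))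
      (PT.not (PT.eq (PT.snd hp) (PT.const 0)))).congr fun x => ?_
    rw [show (p x).1.toNat + (-(p x).1).toNat = (p x).1.natAbs by omega]
    simp
  refine ⟨fun x => if h : Nat.gcd (p x).1.natAbs (p x).2 = 1 ∧ (p x).2 ≠ 0 then
    ⟨(p x).1, (p x).2, h.2, h.1⟩ else 0, ?_, fun q => ?_⟩
  · refine PTR.congr (PT.ite hc hp (PT.const ((0 : ℤ), (1 : ℕ)))) fun x => ?_
    beta_reduce
    split_ifs <;> rfl
  · have : p (enc q) = (q.num, q.den) := ep (q.num, q.den)
    simp only [this]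
    rw [dif_pos ⟨q.reduced, q.den_nz⟩]

end Pool.Agent.Lib.SN15
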