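import Pool.Agent.Lib.SN15.Defs
import Pool.Agent.Lib.SN15.Rat
import Pool.Agent.Lib.MP_50cd9e_lc.Mem

/-! Translation between formulas with integer constants and formulas over `0, 1, +, *`. -/

namespace Pool.Agent.Lib.SN15

open Pool.Agent.Lib.helper82
open Pool.Agent.Lib.MP_50cd9e_lc (numTm eval_numTm PTm)

abbrev OTm := MP_3930bf_lc.Tm
abbrev OFm := MP_3930bf_lc.Fm
abbrev Tok := ℕ × ℤ

def cst (z : ℤ) : OTm := .add (numTm z.toNat) (.mul (.var 0) (numTm (-z).toNat))

def Tm.tr : Tm → OTm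
  | var i => .var (i + 1)
  | const z => cst z
  | add s t => .add s.tr t.tr
  | mul s t => .mul s.tr t.tr

def Fm.tr : Fm → OFm
  | eq s t => .eq s.tr t.tr
  | lt s t => .lt s.tr t.tr
  | le s t => .not (.lt .zero (.add s.tr (.mul (.var 0) t.tr)))
  | not p => .not p.tr
  | and p q => .and p.tr q.tr
  | or p q => .or p.tr q.tr

def Fm.full (p : Fm) : OFm := .and (.eq (.add (.var 0) .one) .zero) p.tr

lemma Tm.eval_tr (y : ℕ → ℝ) (hy : y 0 = -1) (t : Tm) :
    t.tr.eval y = t.eval fun i => y (i + 1) := by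
  induction t with
  | var i => rfl
  | const z =>
    simp only [Tm.tr, cst, MP_3930bf_lc.Tm.eval, eval_numTm, hy, Tm.eval]
    have : ((z.toNat : ℤ) : ℝ) - (((-z).toNat : ℤ) : ℝ) = z := by
      rw [← Int.cast_sub, Int.toNat_sub_toNat_neg]
    push_cast at this
    linarith
  | add s t hs ht => simp only [Tm.tr, MP_3930bf_lc.Tm.eval, Tm.eval, hs, ht]
  | mul s t hs ht => simp only [Tm.tr, MP_3930bf_lc.Tm.eval, Tm.eval, hs, ht]

lemma Fm.holds_tr (y : ℕ → ℝ) (hy : y 0 = -1) (p : Fm) :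
    p.tr.Holds y ↔ p.Holds fun i => y (i + 1) := by
  induction p with
  | eq s t => simp only [Fm.tr, MP_3930bf_lc.Fm.Holds, Fm.Holds, Tm.eval_tr y hy]
  | lt s t => simp only [Fm.tr, MP_3930bf_lc.Fm.Holds, Fm.Holds, Tm.eval_tr y hy]
  | le s t =>
    simp only [Fm.tr, MP_3930bf_lc.Fm.Holds, MP_3930bf_lc.Tm.eval, Fm.Holds, Tm.eval_tr y hy, hy,
      not_lt]
    constructor <;> intro h <;> linarith
  | not p hp => simp only [Fm.tr, MP_3930bf_lc.Fm.Holds, Fm.Holds, hp]
  | and p q hp hq => simp only [Fm.tr, MP_3930bf_lc.Fm.Holds, Fm.Holds, hp, hq]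
  | or p q hp hq => simp only [Fm.tr, MP_3930bf_lc.Fm.Holds, Fm.Holds, hp, hq]

lemma Fm.sat_full (p : Fm) : (∃ y, p.full.Holds y) ↔ ∃ x, p.Holds x := by
  constructor
  · rintro ⟨y, h1, h2⟩
    have hy : y 0 = -1 := by
      simp only [MP_3930bf_lc.Fm.Holds, MP_3930bf_lc.Tm.eval] at h1
      linarith
    exact ⟨_, (p.holds_tr y hy).1 h2⟩
  · rintro ⟨x, hx⟩
    refine ⟨fun i => Nat.casesOn i (-1) x, ?_, (p.holds_tr _ rfl).2 hx⟩
    simp [MP_3930bf_lc.Fm.Holds, MP_3930bf_lc.Tm.eval]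

/-! The stack automaton: sort `0` is a term, `1` a term to be negated, `2` a formula. -/

def chk (top : ℕ) (t : Tok) : Bool :=
  if t.1 = 0 then decide (top ≤ 1) && decide ((-t.2).toNat = 0)
  else if t.1 = 1 then decide (top ≤ 1)
  else if t.1 ≤ 3 then decide (top ≤ 1) && decide (t.2 = 0)
  else decide (t.1 ≤ 9) && (decide (top = 2) && decide (t.2 = 0))

def psh (k : ℕ) : List ℕ :=
  if k ≤ 1 then [] else if k ≤ 5 then [0, 0] else if k = 6 then [0, 1] else if k = 7 then [2]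
  else [2, 2]

def pre (top : ℕ) : List ℕ := if top = 1 then [3, 9] else []

def emit (t : Tok) : List ℕ :=
  if t.1 = 0 then [t.2.toNat + 10] else if t.1 = 1 then (cst t.2).code
  else if t.1 ≤ 5 then [t.1] else if t.1 = 6 then [6, 5, 0, 2] else if t.1 = 7 then [6]
  else if t.1 = 8 then [7] else [8]

abbrev St := List ℕ × List ℕ × Bool

def step (s : St) (t : Tok) : St :=
  (psh t.1 ++ s.1.tail, s.2.1 ++ (pre (s.1.headD 3) ++ emit t), s.2.2 && chk (s.1.headD 3) t)

lemma run_tm (t : Tm) : ∀ (top : ℕ) (_ : top ≤ 1) (S out : List ℕ) (ok : Bool),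
    t.code.foldl step (top :: S, out, ok) = (S, out ++ (pre top ++ t.tr.code), ok) := by
  induction t with
  | var i =>
    intro top h S out ok
    simp [Tm.code, step, psh, emit, chk, h, Tm.tr, MP_3930bf_lc.Tm.code]
  | const z =>
    intro top h S out ok
    simp [Tm.code, step, psh, emit, chk, h, Tm.tr]
  | add s t hs ht =>
    intro top h S out ok
    have e : step (top :: S, out, ok) (2, 0) = (0 :: 0 :: S, out ++ (pre top ++ [2]), ok) := by
      simp [step, psh, emit, chk, h]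
    rw [Tm.code, List.foldl_cons, e, List.foldl_append, hs 0 (by omega), ht 0 (by omega)]
    simp [pre, Tm.tr, MP_3930bf_lc.Tm.code]
  | mul s t hs ht =>
    intro top h S out ok
    have e : step (top :: S, out, ok) (3, 0) = (0 :: 0 :: S, out ++ (pre top ++ [3]), ok) := by
      simp [step, psh, emit, chk, h]
    rw [Tm.code, List.foldl_cons, e, List.foldl_append, hs 0 (by omega), ht 0 (by omega)]
    simp [pre, Tm.tr, MP_3930bf_lc.Tm.code]

lemma run_fm (p : Fm) : ∀ (S out : List ℕ) (ok : Bool),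
    p.code.foldl step (2 :: S, out, ok) = (S, out ++ p.tr.code, ok) := by
  induction p with
  | eq s t =>
    intro S out ok
    have e : step (2 :: S, out, ok) (4, 0) = (0 :: 0 :: S, out ++ [4], ok) := by
      simp [step, psh, emit, chk, pre]
    rw [Fm.code, List.foldl_cons, e, List.foldl_append, run_tm s 0 (by omega),
      run_tm t 0 (by omega)]
    simp [pre, Fm.tr, MP_3930bf_lc.Fm.code]
  | lt s t =>
    intro S out ok
    have e : step (2 :: S, out, ok) (5, 0) = (0 :: 0 :: S, out ++ [5], ok) := by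
      simp [step, psh, emit, chk, pre]
    rw [Fm.code, List.foldl_cons, e, List.foldl_append, run_tm s 0 (by omega),
      run_tm t 0 (by omega)]
    simp [pre, Fm.tr, MP_3930bf_lc.Fm.code]
  | le s t =>
    intro S out ok
    have e : step (2 :: S, out, ok) (6, 0) = (0 :: 1 :: S, out ++ [6, 5, 0, 2], ok) := by
      simp [step, psh, emit, chk, pre]
    rw [Fm.code, List.foldl_cons, e, List.foldl_append, run_tm s 0 (by omega),
      run_tm t 1 (by omega)]
    simp [pre, Fm.tr, MP_3930bf_lc.Fm.code, MP_3930bf_lc.Tm.code]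
  | not p hp =>
    intro S out ok
    have e : step (2 :: S, out, ok) (7, 0) = (2 :: S, out ++ [6], ok) := by
      simp [step, psh, emit, chk, pre]
    rw [Fm.code, List.foldl_cons, e, hp]
    simp [Fm.tr, MP_3930bf_lc.Fm.code]
  | and p q hp hq =>
    intro S out ok
    have e : step (2 :: S, out, ok) (8, 0) = (2 :: 2 :: S, out ++ [7], ok) := by
      simp [step, psh, emit, chk, pre]
    rw [Fm.code, List.foldl_cons, e, List.foldl_append, hp, hq]
    simp [Fm.tr, MP_3930bf_lc.Fm.code]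
  | or p q hp hq =>
    intro S out ok
    have e : step (2 :: S, out, ok) (9, 0) = (2 :: 2 :: S, out ++ [8], ok) := by
      simp [step, psh, emit, chk, pre]
    rw [Fm.code, List.foldl_cons, e, List.foldl_append, hp, hq]
    simp [Fm.tr, MP_3930bf_lc.Fm.code]

def WF : List ℕ → List Tok → Prop
  | [], l => l = []
  | s :: S, l => (s = 2 ∧ ∃ (p : Fm) (r : List Tok), l = p.code ++ r ∧ WF S r) ∨
      (s ≤ 1 ∧ ∃ (t : Tm) (r : List Tok), l = t.code ++ r ∧ WF S r)

lemma wf_tt {a b : ℕ} (ha : a ≤ 1) (hb : b ≤ 1) {S : List ℕ} {l : List Tok}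
    (h : WF (a :: b :: S) l) : ∃ (s t : Tm) (r : List Tok), l = s.code ++ t.code ++ r ∧ WF S r := by
  rcases h with ⟨h, -⟩ | ⟨-, s, r, rfl, h⟩
  · omega
  rcases h with ⟨h, -⟩ | ⟨-, t, r', rfl, h⟩
  · omega
  exact ⟨s, t, r', by simp, h⟩

lemma wf_f {S : List ℕ} {l : List Tok} (h : WF (2 :: S) l) :
    ∃ (p : Fm) (r : List Tok), l = p.code ++ r ∧ WF S r := by
  rcases h with ⟨-, h⟩ | ⟨h, -⟩
  · exact h
  · omega

lemma wf_step {top : ℕ} {S : List ℕ} {t : Tok} {l : List Tok} (hc : chk top t = true)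
    (h : WF (psh t.1 ++ S) l) : WF (top :: S) (t :: l) := by
  obtain ⟨k, z⟩ := t
  have hk : k ≤ 9 := by
    by_contra hk
    simp only [chk] at hc
    rw [if_neg (by omega), if_neg (by omega), if_neg (by omega)] at hc
    simp [hk] at hc
  interval_cases k <;> simp [chk] at hc <;> simp [psh] at h
  · refine Or.inr ⟨hc.1, .var z.toNat, l, ?_, h⟩
    simp [Tm.code, hc.2]
  · exact Or.inr ⟨hc, .const z, l, rfl, h⟩
  · obtain ⟨s, t, r, rfl, g⟩ := wf_tt (by omega) (by omega) h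
    exact Or.inr ⟨hc.1, .add s t, r, by simp [Tm.code, hc.2], g⟩
  · obtain ⟨s, t, r, rfl, g⟩ := wf_tt (by omega) (by omega) h
    exact Or.inr ⟨hc.1, .mul s t, r, by simp [Tm.code, hc.2], g⟩
  · obtain ⟨s, t, r, rfl, g⟩ := wf_tt (by omega) (by omega) h
    exact Or.inl ⟨hc.1, .eq s t, r, by simp [Fm.code, hc.2], g⟩
  · obtain ⟨s, t, r, rfl, g⟩ := wf_tt (by omega) (by omega) h
    exact Or.inl ⟨hc.1, .lt s t, r, by simp [Fm.code, hc.2], g⟩
  · obtain ⟨s, t, r, rfl, g⟩ := wf_tt (by omega) (by omega) h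
    exact Or.inl ⟨hc.1, .le s t, r, by simp [Fm.code, hc.2], g⟩
  · obtain ⟨p, r, rfl, g⟩ := wf_f h
    exact Or.inl ⟨hc.1, .not p, r, by simp [Fm.code, hc.2], g⟩
  · obtain ⟨p, r', rfl, g'⟩ := wf_f h
    obtain ⟨q, r, rfl, g⟩ := wf_f g'
    exact Or.inl ⟨hc.1, .and p q, r, by simp [Fm.code, hc.2], g⟩
  · obtain ⟨p, r', rfl, g'⟩ := wf_f h
    obtain ⟨q, r, rfl, g⟩ := wf_f g'
    exact Or.inl ⟨hc.1, .or p q, r, by simp [Fm.code, hc.2], g⟩

lemma chk_three (t : Tok) : chk 3 t = false := by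
  unfold chk
  split_ifs <;> simp

lemma run_wf : ∀ (l : List Tok) (s : St), (l.foldl step s).1 = [] → (l.foldl step s).2.2 = true →
    s.2.2 = true ∧ WF s.1 l := by
  intro l
  induction l with
  | nil =>
    intro s h1 h2
    simp only [List.foldl_nil] at h1 h2
    exact ⟨h2, by rw [h1]; rfl⟩
  | cons t l ih =>
    rintro ⟨S, out, ok⟩ h1 h2
    obtain ⟨h3, h4⟩ := ih _ h1 h2
    simp only [step, Bool.and_eq_true] at h3 h4
    refine ⟨h3.1, ?_⟩
    rcases S with _ | ⟨top, S⟩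
    · simp [chk_three] at h3
    · exact wf_step h3.2 h4

def run (l : List Tok) : St := l.foldl step ([2], [], true)

def noFm : OFm := .lt .zero .zero

def conv (l : List Tok) : List ℕ :=
  bif (run l).1.isEmpty && (run l).2.2 then [7, 4, 2, 9, 1, 0] ++ (run l).2.1 else noFm.code

lemma conv_code (p : Fm) : conv p.code = p.full.code := by
  simp [conv, run, run_fm, Fm.full, MP_3930bf_lc.Fm.code, MP_3930bf_lc.Tm.code]

lemma conv_bad {l : List Tok} (h : ¬ ∃ p : Fm, l = p.code) : conv l = noFm.code := by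
  unfold conv
  cases e : ((run l).1.isEmpty && (run l).2.2)
  · rfl
  · simp only [Bool.and_eq_true, List.isEmpty_iff] at e
    obtain ⟨p, r, rfl, hr⟩ := wf_f (run_wf l _ e.1 e.2).2
    exact absurd ⟨p, by rw [show r = [] from hr, List.append_nil]⟩ h

section
variable {α : Type} [Enc α]

theorem chk_pt {a : α → ℕ} {t : α → Tok} (ha : PT a) (ht : PT t) : PT fun x => chk (a x) (t x) :=
  PT.iteEq (PT.fst ht) (PT.const 0)
    (PT.and (PT.le ha (PT.const 1)) (PT.eq (intNeg (PT.snd ht)) (PT.const 0)))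
    (PT.iteEq (PT.fst ht) (PT.const 1) (PT.le ha (PT.const 1))
      (PT.ite (PT.le (PT.fst ht) (PT.const 3))
        (PT.and (PT.le ha (PT.const 1)) (PT.eq (PT.snd ht) (PT.const 0)))
        (PT.and (PT.le (PT.fst ht) (PT.const 9))
          (PT.and (PT.eq ha (PT.const 2)) (PT.eq (PT.snd ht) (PT.const 0))))))

theorem psh_pt {k : α → ℕ} (hk : PT k) : PT fun x => psh (k x) :=
  PT.ite (PT.le hk (PT.const 1)) (PT.const _) (PT.ite (PT.le hk (PT.const 5)) (PT.const _)
    (PT.iteEq hk (PT.const 6) (PT.const _) (PT.iteEq hk (PT.const 7) (PT.const _) (PT.const _))))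

theorem pre_pt {k : α → ℕ} (hk : PT k) : PT fun x => pre (k x) :=
  PT.iteEq hk (PT.const 1) (PT.const _) (PT.const _)

theorem emit_pt : PT emit :=
  PT.iteEq PT.fst' (PT.const 0) (PT.cons (PT.add (intPos PT.snd') (PT.const 10)) (PT.const []))
    (PT.iteEq PT.fst' (PT.const 1)
      (PTm.add (PTm.num (intPos PT.snd')) (PTm.mul (PTm.const _) (PTm.num (intNeg PT.snd'))))
      (PT.ite (PT.le PT.fst' (PT.const 5)) (PT.cons PT.fst' (PT.const []))
        (PT.iteEq PT.fst' (PT.const 6) (PT.const _) (PT.iteEq PT.fst' (PT.const 7) (PT.const _)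
          (PT.iteEq PT.fst' (PT.const 8) (PT.const _) (PT.const _))))))

end

theorem run_pt : PT run := by
  obtain ⟨p, hp⟩ := emit_pt.sz_bd
  have hS : PT fun q : List Tok × St × Tok => q.2.1.1 := PT.fst (PT.fst PT.snd')
  have ht : PT fun q : List Tok × St × Tok => q.2.2 := PT.snd PT.snd'
  have c1 : ∃ c, ∀ k, sz (psh k) ≤ c := by
    refine ⟨sz ([] : List ℕ) + sz [0, 0] + sz [0, 1] + sz [2] + sz [2, 2], fun k => ?_⟩
    unfold psh
    split_ifs <;> omega
  have c2 : ∃ c, ∀ k, sz (pre k) ≤ c := by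
    refine ⟨sz ([] : List ℕ) + sz [3, 9], fun k => ?_⟩
    unfold pre
    split_ifs <;> omega
  obtain ⟨c1, h1⟩ := c1
  obtain ⟨c2, h2⟩ := c2
  refine PT.foldl_add (h := fun (_ : List Tok) s t => step s t) PT.id (PT.const _)
    (PT.pair (PT.append (psh_pt (PT.fst ht)) (PT.tail hS))
      (PT.pair (PT.append (PT.fst (PT.snd (PT.fst PT.snd')))
        (PT.append (pre_pt (PT.headD hS 3)) (PT.comp emit_pt ht)))
        (PT.and (PT.snd (PT.snd (PT.fst PT.snd'))) (chk_pt (PT.headD hS 3) ht))))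
    (fun l => 2 * c1 + 2 * c2 + 2 * p.eval (sz l))
    ((Bd.const _).add ((Bd.const 2).mul (Bd.self.eval p))) ?_
  rintro l ⟨S, out, ok⟩ t hl
  have a1 := (hp t).trans (eval_mono p (sz_le_of_mem hl))
  have a2 := h1 t.1
  have a3 := h2 (S.headD 3)
  have a4 := sz_tail_le S
  simp only [step, sz_prod, sz_append, sz_bool] at a1 ⊢
  omega

theorem conv_pt : PT conv :=
  PT.cond (PT.and (PT.isEmpty (PT.fst run_pt)) (PT.snd (PT.snd run_pt)))
    (PT.append (PT.const _) (PT.fst (PT.snd run_pt))) (PT.const _)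

/-! The other direction is a symbol by symbol translation. -/

def bkT : OTm → Tm
  | .zero => .const 0
  | .one => .const 1
  | .var n => .var (n + 9)
  | .add s t => .add (bkT s) (bkT t)
  | .mul s t => .mul (bkT s) (bkT t)

def bkF : OFm → Fm
  | .eq s t => .eq (bkT s) (bkT t)
  | .lt s t => .lt (bkT s) (bkT t)
  | .not p => .not (bkF p)
  | .and p q => .and (bkF p) (bkF q)
  | .or p q => .or (bkF p) (bkF q)

def bk (n : ℕ) : Tok :=
  if n ≤ 1 then (1, n) else if n ≤ 5 then (n, 0) else if n ≤ 8 then (n + 1, 0) else (0, n)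

lemma code_bkT (t : OTm) : (bkT t).code = t.code.map bk := by
  induction t with
  | zero => rfl
  | one => rfl
  | var n => simp [bkT, Tm.code, MP_3930bf_lc.Tm.code, bk]
  | add s t hs ht => simp [bkT, Tm.code, MP_3930bf_lc.Tm.code, hs, ht, bk]
  | mul s t hs ht => simp [bkT, Tm.code, MP_3930bf_lc.Tm.code, hs, ht, bk]

lemma code_bkF (p : OFm) : (bkF p).code = p.code.map bk := by
  induction p with
  | eq s t => simp [bkF, Fm.code, MP_3930bf_lc.Fm.code, code_bkT, bk]
  | lt s t => simp [bkF, Fm.code, MP_3930bf_lc.Fm.code, code_bkT, bk]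
  | not p hp => simp [bkF, Fm.code, MP_3930bf_lc.Fm.code, hp, bk]
  | and p q hp hq => simp [bkF, Fm.code, MP_3930bf_lc.Fm.code, hp, hq, bk]
  | or p q hp hq => simp [bkF, Fm.code, MP_3930bf_lc.Fm.code, hp, hq, bk]

lemma eval_bkT (x : ℕ → ℝ) (t : OTm) : (bkT t).eval x = t.eval fun n => x (n + 9) := by
  induction t with
  | zero => simp [bkT, Tm.eval, MP_3930bf_lc.Tm.eval]
  | one => simp [bkT, Tm.eval, MP_3930bf_lc.Tm.eval]
  | var n => rfl
  | add s t hs ht => simp only [bkT, Tm.eval, MP_3930bf_lc.Tm.eval, hs, ht]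
  | mul s t hs ht => simp only [bkT, Tm.eval, MP_3930bf_lc.Tm.eval, hs, ht]

lemma holds_bkF (x : ℕ → ℝ) (p : OFm) : (bkF p).Holds x ↔ p.Holds fun n => x (n + 9) := by
  induction p with
  | eq s t => simp only [bkF, Fm.Holds, MP_3930bf_lc.Fm.Holds, eval_bkT]
  | lt s t => simp only [bkF, Fm.Holds, MP_3930bf_lc.Fm.Holds, eval_bkT]
  | not p hp => simp only [bkF, Fm.Holds, MP_3930bf_lc.Fm.Holds, hp]
  | and p q hp hq => simp only [bkF, Fm.Holds, MP_3930bf_lc.Fm.Holds, hp, hq]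
  | or p q hp hq => simp only [bkF, Fm.Holds, MP_3930bf_lc.Fm.Holds, hp, hq]

lemma sat_bkF (p : OFm) : (∃ x, (bkF p).Holds x) ↔ ∃ y, p.Holds y := by
  constructor
  · rintro ⟨x, h⟩
    exact ⟨_, (holds_bkF x p).1 h⟩
  · rintro ⟨y, h⟩
    exact ⟨fun n => y (n - 9), (holds_bkF _ p).2 (by simpa using h)⟩

theorem bk_pt : PT bk :=
  PT.ite (PT.le PT.id (PT.const 1)) (PT.pair (PT.const 1) (PT.natCastInt PT.id))
    (PT.ite (PT.le PT.id (PT.const 5)) (PT.pair PT.id (PT.const 0))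
      (PT.ite (PT.le PT.id (PT.const 8)) (PT.pair (PT.succ PT.id) (PT.const 0))
        (PT.pair (PT.const 0) (PT.natCastInt PT.id))))

end Pool.Agent.Lib.SN15
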