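import Pool.Agent.Lib.SN15.Form

/-! Completeness for languages of bit strings. -/

namespace Pool.Agent.Lib.SN15

open Pool.Agent.Lib.helper82
open Pool.Agent.Lib.MP_50cd9e_lc (Inst encInst Dat dat InForallR bound_mem bound_hard inst_iff)
open Pool.Agent.Lib.MP_3930bf_lc (encFm holds_iff)

theorem ptr_of_pt {β : Type} [Enc β] {G : List Bool → β} (h : PT G) :
    PTR (id : List Bool → List Bool) fun w => enc (G w) :=
  PTR.comp (F := fun w => (⟨w⟩ : Raw)) (PT.comp h PT.rawToList) PTR.id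

lemma sat_congr {p q : Fm} (h : p.code = q.code) : (∃ x, p.Holds x) ↔ ∃ x, q.Holds x := by
  rw [← p.sat_full, ← q.sat_full, holds_iff, holds_iff, ← conv_code, ← conv_code, h]

lemma code_mem (p : Fm) : enc p.code ∈ ETR ↔ ∃ x, p.Holds x :=
  ⟨fun ⟨_, h, g⟩ => (sat_congr (enc_injective h)).2 g, fun g => ⟨p, rfl, g⟩⟩

theorem etr_in : ∃ g : List Bool → OFm, PTR id (fun w => encFm (g w)) ∧
    ∀ w, w ∈ ETR ↔ ∃ y, (g w).Holds y := by
  classical
  refine ⟨fun w => if h : ∃ p : Fm, w = enc p.code then h.choose.full else noFm, ?_, fun w => ?_⟩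
  · refine (ptr_of_pt ((Prs.nat.prod prs_int).list.extend conv_pt noFm.code)).congr fun w => ?_
    change enc _ = enc _
    congr 1
    beta_reduce
    split_ifs with h
    · conv_lhs => rw [h.choose_spec, enc_injective.extend_apply, conv_code]
    · by_cases h' : ∃ l : List Tok, enc l = w
      · obtain ⟨l, rfl⟩ := h'
        rw [enc_injective.extend_apply, conv_bad]
        rintro ⟨p, rfl⟩
        exact h ⟨p, rfl⟩
      · rw [Function.extend_apply' _ _ _ h']
  · beta_reduce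
    split_ifs with h
    · rw [Fm.sat_full, ← code_mem, ← h.choose_spec]
    · constructor
      · rintro ⟨p, h1, -⟩
        exact absurd ⟨p, h1⟩ h
      · rintro ⟨y, hy⟩
        exact absurd hy (lt_irrefl _)

theorem etr_out : PTR encFm fun p : OFm => enc (bkF p).code :=
  (MP_50cd9e_lc.ptr_code (PT.map (F := fun (_ : List ℕ) n => bk n) PT.id
    (PT.comp bk_pt PT.snd'))).congr fun p => by rw [code_bkF]

def okD (D : Dat) : Bool :=
  decide (D.2.1.length = D.1) && (D.2.1.all fun r => decide (r.length = D.1) &&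
    r.all fun c => decide (c.length = D.1)) && !decide (D.2.2.num.toNat = 0)

theorem okD_pt : PT okD := by
  have h : PT fun D : Dat => ((D.2.2.num, D.2.2.den) : ℤ × ℕ) := PT.snd PT.snd'
  exact PT.and (PT.and (PT.eq (PT.length (PT.fst PT.snd')) PT.fst')
    (PT.all (P := fun (D : Dat) (r : List (List ℚ)) => decide (r.length = D.1) &&
        r.all fun c => decide (c.length = D.1)) (PT.fst PT.snd')
      (PT.and (PT.eq (PT.length PT.snd') (PT.fst PT.fst'))
        (PT.all (P := fun (p : Dat × List (List ℚ)) (c : List ℚ) => decide (c.length = p.1.1))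
          PT.snd' (PT.eq (PT.length PT.snd') (PT.fst (PT.fst PT.fst')))))))
    (PT.not (PT.eq (intPos (PT.fst h)) (PT.const 0)))

lemma exists_ofFn {β γ : Type} {d : ℕ} (F : γ → β) (l : List β) (hl : l.length = d)
    (h : ∀ b ∈ l, ∃ c, b = F c) : ∃ f : Fin d → γ, l = List.ofFn fun i => F (f i) := by
  subst hl
  choose f hf using h
  refine ⟨fun i => f _ (List.get_mem l i), ?_⟩
  conv_lhs => rw [← List.ofFn_get l]
  congr 1
  funext i
  exact hf _ _

lemma okD_iff (D : Dat) : okD D = true ↔ ∃ I, D = dat I := by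
  obtain ⟨d, R, s⟩ := D
  simp only [okD, Bool.and_eq_true, decide_eq_true_eq, List.all_eq_true, Bool.not_eq_true',
    decide_eq_false_iff_not]
  constructor
  · rintro ⟨⟨h1, h2⟩, h3⟩
    obtain ⟨T, hT⟩ := exists_ofFn (fun M : Fin d → Fin d → ℚ => List.ofFn fun j => List.ofFn
      fun k => M j k) R h1 fun r hr => exists_ofFn (fun v : Fin d → ℚ => List.ofFn fun k => v k) r
        (h2 r hr).1 fun c hc => exists_ofFn id c ((h2 r hr).2 c hc) fun b _ => ⟨b, rfl⟩
    exact ⟨⟨d, T, s, Rat.num_pos.1 (by omega)⟩, by rw [hT]; rfl⟩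
  · rintro ⟨I, h⟩
    simp only [dat, Prod.mk.injEq] at h
    obtain ⟨rfl, rfl, rfl⟩ := h
    have := Rat.num_pos.2 I.pos
    refine ⟨⟨by simp, fun r hr => ?_⟩, by omega⟩
    obtain ⟨i, rfl⟩ := List.mem_ofFn.1 hr
    refine ⟨by simp, fun c hc => ?_⟩
    obtain ⟨j, rfl⟩ := List.mem_ofFn.1 hc
    simp

lemma encInst_inj {I J : Inst} (h : encInst I = encInst J) : I = J := by
  have h1 : dat I = dat J := enc_injective h
  obtain ⟨d, T, s, hs⟩ := I
  obtain ⟨d', T', s', hs'⟩ := J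
  simp only [dat, Prod.mk.injEq] at h1
  obtain ⟨rfl, h2, rfl⟩ := h1
  have : T = T' := by
    funext i j k
    have a := congrFun (List.ofFn_injective h2) i
    have b := congrFun (List.ofFn_injective a) j
    exact congrFun (List.ofFn_injective b) k
  rw [this]

theorem reenc (I₀ : Inst) : ∃ h : List Bool → Inst, PTR id (fun w => encInst (h w)) ∧
    (∀ I, h (encInst I) = I) ∧ ∀ w, (¬ ∃ I, w = encInst I) → h w = I₀ := by
  classical
  refine ⟨fun w => if h : ∃ I, w = encInst I then h.choose else I₀, ?_, fun I => ?_,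
    fun w hw => dif_neg hw⟩
  · have h1 := (Prs.nat.prod (prs_rat.list.list.list.prod prs_rat)).extend okD_pt false
    refine (ptr_of_pt (PT.comp PT.listToRaw (PT.cond h1 PT.id (PT.const (encInst I₀))))).congr
      fun w => ?_
    rw [enc_raw]
    beta_reduce
    split_ifs with h
    · obtain ⟨I, rfl⟩ := id h
      have : encInst I = enc (dat I) := rfl
      rw [← h.choose_spec]
      conv_lhs => rw [this, enc_injective.extend_apply, (okD_iff _).2 ⟨I, rfl⟩]
      rfl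
    · by_cases h' : ∃ D : Dat, enc D = w
      · obtain ⟨D, rfl⟩ := h'
        rw [enc_injective.extend_apply]
        cases e : okD D
        · rfl
        · obtain ⟨I, rfl⟩ := (okD_iff D).1 e
          exact absurd ⟨I, rfl⟩ h
      · rw [Function.extend_apply' _ _ _ h']
        rfl
  · have h : ∃ J, encInst I = encInst J := ⟨I, rfl⟩
    beta_reduce
    rw [dif_pos h]
    exact (encInst_inj h.choose_spec).symm

lemma spec_eq (I : Inst) : spec I.T = I.specNorm := by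
  have k : ∀ x : EuclideanSpace ℝ (Fin I.d), ‖x‖ = 1 ↔ ∑ i, x i ^ 2 = 1 := fun x => by
    rw [EuclideanSpace.norm_eq, Real.sqrt_eq_one]
    simp
  unfold spec Inst.specNorm
  congr 1
  ext r
  constructor
  · rintro ⟨x, y, z, h1, h2, h3, h4⟩
    exact ⟨x, y, z, (k x).1 h1, (k y).1 h2, (k z).1 h3, h4⟩
  · rintro ⟨x, y, z, h1, h2, h3, h4⟩
    exact ⟨WithLp.toLp 2 x, WithLp.toLp 2 y, WithLp.toLp 2 z, (k _).2 h1, (k _).2 h2, (k _).2 h3, h4⟩

lemma mem_bound (w : List Bool) : w ∈ BOUND ↔ ∃ I : Inst, w = encInst I ∧ I.specNorm ≤ I.σ :=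
  ⟨fun ⟨d, T, s, h1, h2, h3⟩ => ⟨⟨d, T, s, h1⟩, h2, by rw [← spec_eq]; exact h3⟩,
    fun ⟨I, h1, h2⟩ => ⟨I.d, I.T, I.σ, I.pos, h1, by rw [spec_eq]; exact h2⟩⟩

lemma mem_exceed (w : List Bool) : w ∈ EXCEED ↔ ∃ I : Inst, w = encInst I ∧ ¬ I.specNorm ≤ I.σ :=
  ⟨fun ⟨d, T, s, h1, h2, h3⟩ => ⟨⟨d, T, s, h1⟩, h2, by rw [← spec_eq]; exact not_le.2 h3⟩,
    fun ⟨I, h1, h2⟩ => ⟨I.d, I.T, I.σ, I.pos, h1, by rw [spec_eq]; exact not_le.1 h2⟩⟩

lemma enc_iff (P : Inst → Prop) (I : Inst) : (∃ J, encInst I = encInst J ∧ P J) ↔ P I :=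
  ⟨fun ⟨_, h, g⟩ => encInst_inj h ▸ g, fun g => ⟨I, rfl, g⟩⟩

/-- A language whose words are read as instances, other strings as a fixed instance. -/
lemma memb (I₀ : Inst) (A : Set (List Bool)) (h1 : ∀ I, encInst I ∈ A ↔ ¬ I.specNorm ≤ I.σ)
    (h2 : ∀ w, (¬ ∃ I, w = encInst I) → (w ∈ A ↔ ¬ I₀.specNorm ≤ I₀.σ)) : A ∈ ExR := by
  obtain ⟨h, hp, ha, hb⟩ := reenc I₀
  obtain ⟨f, hf, hs⟩ := bound_mem
  beta_reduce at hs
  refine ⟨fun w => enc (bkF (f (h w))).code, PTR.toTM2 (PTR.comp (F := fun w => f (h w)) etr_out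
    (PTR.comp (F := h) (PTR.ofTM2 hf) hp)), fun w => ?_⟩
  rw [code_mem, sat_bkF, ← hs]
  by_cases hw : ∃ I, w = encInst I
  · obtain ⟨I, rfl⟩ := hw
    rw [ha, h1]
  · rw [hb w hw, h2 w hw]

lemma hard {A : Set (List Bool)} (h : A ∈ ExR) : ∃ f : List Bool → Inst,
    Nonempty (Turing.TM2ComputableInPolyTime id id fun w => encInst (f w)) ∧
      ∀ w, w ∉ A ↔ (f w).specNorm ≤ (f w).σ := by
  obtain ⟨u, hu, hA⟩ := h
  obtain ⟨g, hg, hs⟩ := etr_in
  have h1 : InForallR id fun w => w ∉ A :=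
    ⟨fun w => g (u w), PTR.toTM2 (PTR.comp (F := u) hg (PTR.ofTM2 hu)), fun w => by
      beta_reduce
      rw [not_not, hA, hs]⟩
  obtain ⟨f, hf, hB⟩ := bound_hard id _ h1
  exact ⟨f, PTR.toTM2 (eb := id) (F := fun w => encInst (f w)) (PTR.ofTM2 (eb := encInst) hf), hB⟩

theorem bound_complete : Complete AllR BOUND := by
  refine ⟨memb (MP_50cd9e_lc.inst (MP_3930bf_lc.allCons (MP_3930bf_lc.Fm.eq .zero .zero).code)) _
    (fun I => ?_) (fun w hw => ?_), fun A hA => ?_⟩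
  · rw [Set.mem_compl_iff, mem_bound, enc_iff]
  · rw [inst_iff, not_not, Set.mem_compl_iff, mem_bound]
    exact ⟨fun _ => ⟨0, rfl⟩, fun _ ⟨I, h, _⟩ => hw ⟨I, h⟩⟩
  · obtain ⟨f, hf, h⟩ := hard hA
    refine ⟨_, hf, fun w => ?_⟩
    rw [mem_bound, enc_iff, ← h, Set.mem_compl_iff, not_not]

theorem exceed_complete : Complete ExR EXCEED := by
  refine ⟨memb (MP_50cd9e_lc.inst (MP_3930bf_lc.allCons noFm.code)) _
    (fun I => ?_) (fun w hw => ?_), fun A hA => ?_⟩
  · rw [mem_exceed, enc_iff]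
  · rw [inst_iff, not_not, mem_exceed]
    exact ⟨fun ⟨I, h, _⟩ => absurd ⟨I, h⟩ hw, fun ⟨y, hy⟩ => absurd hy (lt_irrefl _)⟩
  · obtain ⟨f, hf, h⟩ := hard hA
    refine ⟨_, hf, fun w => ?_⟩
    rw [mem_exceed, enc_iff, ← h, not_not]

end Pool.Agent.Lib.SN15
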